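import Pool.Agent.U34.EQ.Main

/-!
# `k`-equilateral `n`-gons which span the Euclidean space of dimension `2 k - 1`

The first part (Q1) of the conjecture is true: for every `k ≥ 2` and every `n > 2 k + 1` there is
a `k`-equilateral `n`-gon which spans `E ^ (2 k - 1)`. If `k ≥ 3`, or if `n` is even, then its
vertices can moreover be taken to be pairwise distinct.

* `n` even: the orbit `x_i = (ζ ^ i, ζ ^ (2 i), …, ζ ^ ((k - 1) i), (-1) ^ i)`, `ζ = exp (2 π I / n)`.
* `n` odd, `k ≥ 3`: the polygon `γ_i = (ζ ^ (a i))_a` in `E ^ (2 k - 2)` with the `k - 1` largest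
  frequencies `a = (n - 1) / 2, …, (n - 2 k + 3) / 2`. With the Fourier transform one sees that the
  framework `γ` on the circulant graph with the steps `1, …, k` has no equilibrium stress of sum
  zero: for the frequency `m ≠ 0` such a stress gives a polynomial of degree at most `2 k` with the
  zeros `ζ ^ c` for `c ∈ B ∪ (B - m)`, `B = {0} ∪ {± a}`, and this set has at least `2 k + 1`
  elements. So the squared distances near those of `γ` are all realised near `γ`, up to additive
  constants, in particular `c_j - ε² (h_i - h_{i + j})²` with `h_i = cos (2 π i / n)`. Now take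
  `ε h` as the last coordinate.
* `n` odd, `k = 2` (here the existence is due to Valiron): the colouring
  `p ↦ ⌊(p q mod n) / q⌋`, `q = ⌊n / (k + 1)⌋`, of the cycle of length `n` uses at most `2 k`
  colours, and any `k + 1` consecutive vertices have different colours. It can be refined to a
  colouring with exactly `2 k` colours; take the vertices of a regular simplex as colours.
-/

set_option autoImplicit false

namespace Pool.Agent.Results.MP_fb0157_co.EquilateralPolygonsExist

open Pool.Agent.Results.MP_fb0157_co.ThreeEquilateralNineGon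

/-- For every `k ≥ 2` and every `n > 2 k + 1` there is a `k`-equilateral `n`-gon which spans
`E ^ (2 k - 1)`; its vertices are pairwise distinct if `k ≥ 3` or `n` is even. -/
theorem result : ∀ k n : ℕ, 2 ≤ k → 2 * k + 1 < n →
    ∃ x : ZMod n → EuclideanSpace ℝ (Fin (2 * k - 1)),
      IsKEquilateral k x ∧ Spans x ∧ (3 ≤ k ∨ Even n → Function.Injective x) := by
  intro k n hk hn
  have : NeZero n := ⟨by omega⟩
  obtain ⟨K, rfl⟩ : ∃ K, k = K + 1 := ⟨k - 1, by omega⟩
  by_cases he : Even n
  · obtain ⟨x, h1, h2, h3⟩ := Pool.Agent.U34.EQ.even_case (K := K) (by omega) hn he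
    exact ⟨x, h2, h3, fun _ => h1⟩
  by_cases h3 : 3 ≤ K + 1
  · rw [Nat.not_even_iff_odd] at he
    obtain ⟨r, hr⟩ := he
    obtain ⟨x, h1, h2, h3⟩ := Pool.Agent.U34.EQ.odd_case (t := r - K) (K := K) (by omega)
      (by omega) (n := n) (by omega)
    exact ⟨x, h2, h3, fun _ => h1⟩
  · obtain ⟨x, h1, h2⟩ := Pool.Agent.U34.EQ.exists_simplicial hk hn
    exact ⟨x, h1, h2, fun h => absurd h (by tauto)⟩

end Pool.Agent.Results.MP_fb0157_co.EquilateralPolygonsExist
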